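import Mathlib

/-!
Configuration spaces of graphs with sinks.
-/

open scoped unitInterval Topology

namespace Pool.Agent.Helper44.Sinks

/-- A finite graph: finitely many vertices and edges; every edge `e` has two ends `src e`, `tgt e`,
which may coincide (loops), and several edges may have the same ends (multiple edges). -/
structure MGraph where
  V : Type
  E : Type
  finV : Finite V
  finE : Finite E
  src : E → V
  tgt : E → V

/-- The vertices form a discrete space. -/
instance MGraph.topV (G : MGraph) : TopologicalSpace G.V := ⊥

/-- In the disjoint union of the vertices and of one copy of `[0,1]` for each edge `e`, the point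
`0` of the copy of `e` is glued to `src e` and the point `1` is glued to `tgt e`. -/
inductive MGraph.Glue (G : MGraph) : (G.V ⊕ (Σ _ : G.E, I)) → (G.V ⊕ (Σ _ : G.E, I)) → Prop
  | src (e : G.E) : MGraph.Glue G (Sum.inr ⟨e, 0⟩) (Sum.inl (G.src e))
  | tgt (e : G.E) : MGraph.Glue G (Sum.inr ⟨e, 1⟩) (Sum.inl (G.tgt e))

/-- The 1-dimensional CW complex of the graph `G`. -/
def MGraph.Space (G : MGraph) : Type := Quot G.Glue

/-- The quotient topology. -/
instance MGraph.topSpace (G : MGraph) : TopologicalSpace G.Space :=
  instTopologicalSpaceQuot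

/-- The 0-cell given by a vertex. -/
def MGraph.vertex (G : MGraph) (v : G.V) : G.Space := Quot.mk _ (Sum.inl v)

/-- `F_k(Γ,S)`: ordered configurations of `k` points; they may collide only at the sinks `S`. -/
def OConf (G : MGraph) (S : Set G.V) (k : ℕ) : Type :=
  {x : Fin k → G.Space // ∀ i j, i ≠ j → x i = x j → ∃ v ∈ S, x i = G.vertex v}

/-- `F_k(Γ,S)` has the subspace topology from `Γ^k`. -/
instance OConf.top (G : MGraph) (S : Set G.V) (k : ℕ) : TopologicalSpace (OConf G S k) :=
  instTopologicalSpaceSubtype

/-- Two ordered configurations are related if they differ by a permutation of coordinates. -/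
def permSetoid (G : MGraph) (S : Set G.V) (k : ℕ) : Setoid (OConf G S k) where
  r x y := ∃ g : Equiv.Perm (Fin k), ∀ i, y.1 i = x.1 (g i)
  iseqv :=
    { refl := fun _ => ⟨1, fun _ => rfl⟩
      symm := by
        rintro x y ⟨g, h⟩
        exact ⟨g⁻¹, fun i => by rw [h]; simp⟩
      trans := by
        rintro x y z ⟨g, h⟩ ⟨g', h'⟩
        exact ⟨g * g', fun i => by rw [h', h]; rfl⟩ }

/-- `B_k(Γ,S) = F_k(Γ,S) / Σ_k`. -/
def UConf (G : MGraph) (S : Set G.V) (k : ℕ) : Type := Quotient (permSetoid G S k)

/-- `B_k(Γ,S)` has the quotient topology. -/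
instance UConf.top (G : MGraph) (S : Set G.V) (k : ℕ) : TopologicalSpace (UConf G S k) :=
  instTopologicalSpaceQuotient

/-- The bouquet of three circles: one vertex and three loops at it. -/
def bq : MGraph where
  V := Unit
  E := Fin 3
  finV := inferInstance
  finE := inferInstance
  src := fun _ => ()
  tgt := fun _ => ()

end Pool.Agent.Helper44.Sinks
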