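import Mathlib

/-!
An explicit map from the square to the boundary of the cube `[-1,1]^3` collapsing the boundary of
the square to a point.
-/

open scoped unitInterval Topology

namespace Pool.Agent.Helper44.Sinks

/-- coordinates on the square, in `[-1,1]` -/
noncomputable def sc (p : Fin 2 → I) (i : Fin 2) : ℝ := 2 * (p i : ℝ) - 1

theorem sc_mem (p : Fin 2 → I) (i : Fin 2) : |sc p i| ≤ 1 := by
  unfold sc
  have h1 := (p i).2.1
  have h2 := (p i).2.2
  rw [abs_le]
  constructor <;> linarith

noncomputable def rr (p : Fin 2 → I) : ℝ := max |sc p 0| |sc p 1|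

theorem rr_nonneg (p : Fin 2 → I) : 0 ≤ rr p := le_max_of_le_left (abs_nonneg _)

theorem rr_le_one (p : Fin 2 → I) : rr p ≤ 1 := max_le (sc_mem p 0) (sc_mem p 1)

theorem sc_le_rr (p : Fin 2 → I) (i : Fin 2) : |sc p i| ≤ rr p := by
  fin_cases i
  · exact le_max_left _ _
  · exact le_max_right _ _

theorem boundary_iff (p : Fin 2 → I) : p ∈ Cube.boundary (Fin 2) ↔ rr p = 1 := by
  constructor
  · rintro ⟨i, hi⟩
    apply le_antisymm (rr_le_one p)
    have h : |sc p i| = 1 := by
      unfold sc
      rcases hi with hi | hi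
      · rw [hi]; norm_num
      · rw [hi]; norm_num
    rw [← h]
    exact sc_le_rr p i
  · intro h
    have h1 : |sc p 0| = 1 ∨ |sc p 1| = 1 := by
      unfold rr at h
      rcases max_choice |sc p 0| |sc p 1| with h2 | h2
      · left; rw [← h2, h]
      · right; rw [← h2, h]
    have key : ∀ i, |sc p i| = 1 → p i = 0 ∨ p i = 1 := by
      intro i hi
      unfold sc at hi
      rcases (abs_eq zero_le_one).1 hi with h3 | h3
      · right
        ext
        simp only [Set.Icc.coe_one]
        linarith
      · left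
        ext
        simp only [Set.Icc.coe_zero]
        linarith
    rcases h1 with h1 | h1
    · exact ⟨0, key 0 h1⟩
    · exact ⟨1, key 1 h1⟩

/-- scaling factor -/
noncomputable def av (r : ℝ) : ℝ := min 1 (4 * (1 - r)) / max r (1 / 2)

/-- height -/
noncomputable def zv (r : ℝ) : ℝ := max (-1) (min 1 (5 - 8 * r))

theorem av_cont : Continuous av := by
  unfold av
  refine Continuous.div (by fun_prop) (by fun_prop) ?_
  intro r
  have : (0 : ℝ) < max r (1 / 2) := lt_of_lt_of_le (by norm_num) (le_max_right _ _)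
  exact this.ne'

theorem zv_cont : Continuous zv := by unfold zv; fun_prop

theorem av_low {r : ℝ} (h : r ≤ 1 / 2) : av r = 2 := by
  unfold av
  rw [max_eq_right h, min_eq_left (by linarith)]
  norm_num

theorem av_mid {r : ℝ} (h : 1 / 2 ≤ r) (h' : r ≤ 3 / 4) : av r = 1 / r := by
  unfold av
  rw [max_eq_left h, min_eq_left (by linarith)]

theorem av_high {r : ℝ} (h : 3 / 4 ≤ r) : av r = 4 * (1 - r) / r := by
  unfold av
  rw [max_eq_left (by linarith), min_eq_right (by linarith)]

theorem zv_low {r : ℝ} (h : r ≤ 1 / 2) : zv r = 1 := by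
  unfold zv
  rw [min_eq_left (by linarith), max_eq_right (by norm_num)]

theorem zv_mid {r : ℝ} (h : 1 / 2 ≤ r) (h' : r ≤ 3 / 4) : zv r = 5 - 8 * r := by
  unfold zv
  rw [min_eq_right (by linarith), max_eq_right (by linarith)]

theorem zv_high {r : ℝ} (h : 3 / 4 ≤ r) : zv r = -1 := by
  unfold zv
  rw [min_eq_right (by linarith), max_eq_left (by linarith)]

theorem zv_abs (r : ℝ) : |zv r| ≤ 1 := by
  unfold zv
  rw [abs_le]
  exact ⟨le_max_left _ _, max_le (by norm_num) (min_le_left _ _)⟩

theorem av_nonneg {r : ℝ} (h : r ≤ 1) : 0 ≤ av r := by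
  unfold av
  have h1 : (0 : ℝ) < max r (1 / 2) := lt_of_lt_of_le (by norm_num) (le_max_right _ _)
  have h2 : 0 ≤ min 1 (4 * (1 - r)) := le_min (by norm_num) (by linarith)
  positivity

theorem r_av_le {r : ℝ} : r * av r ≤ 1 := by
  rcases le_total r (1 / 2) with h1 | h1
  · rw [av_low h1]; linarith
  · rcases le_total r (3 / 4) with h2 | h2
    · rw [av_mid h1 h2]
      rw [mul_one_div_cancel (by linarith)]
    · rw [av_high h2]
      rw [mul_div_cancel₀ _ (by linarith)]
      linarith

/-- The map from the square to the boundary of the cube `[-1,1]^3`. -/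
noncomputable def gc (p : Fin 2 → I) : Fin 3 → ℝ :=
  ![sc p 0 * av (rr p), sc p 1 * av (rr p), zv (rr p)]

theorem sc_cont (i : Fin 2) : Continuous fun p : Fin 2 → I => sc p i := by
  unfold sc; fun_prop

theorem rr_cont : Continuous rr := by
  unfold rr
  exact (sc_cont 0).abs.max (sc_cont 1).abs

theorem gc_cont : Continuous gc := by
  refine continuous_pi ?_
  intro i
  fin_cases i
  · exact (sc_cont 0).mul (av_cont.comp rr_cont)
  · exact (sc_cont 1).mul (av_cont.comp rr_cont)
  · exact zv_cont.comp rr_cont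

theorem gc_le (p : Fin 2 → I) (i : Fin 3) : |gc p i| ≤ 1 := by
  have h1 := rr_le_one p
  have h2 := r_av_le (r := rr p)
  have h3 := av_nonneg h1
  have key : ∀ j, |sc p j * av (rr p)| ≤ 1 := by
    intro j
    rw [abs_mul, abs_of_nonneg h3]
    exact (mul_le_mul_of_nonneg_right (sc_le_rr p j) h3).trans h2
  fin_cases i
  · exact key 0
  · exact key 1
  · exact zv_abs _

/-- `gc p` is on the boundary of the cube. -/
theorem gc_boundary (p : Fin 2 → I) : ∃ i, gc p i = 1 ∨ gc p i = -1 := by
  rcases le_total (rr p) (1 / 2) with h1 | h1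
  · exact ⟨2, Or.inl (zv_low h1)⟩
  · rcases le_total (rr p) (3 / 4) with h2 | h2
    · have hr : rr p ≠ 0 := by linarith
      have hr0 : 0 < rr p := by linarith
      have key : ∀ j, |sc p j| = rr p → sc p j * av (rr p) = 1 ∨ sc p j * av (rr p) = -1 := by
        intro j hj
        rw [av_mid h1 h2]
        rcases (abs_eq (rr_nonneg p)).1 hj with h | h
        · left; rw [h]; field_simp
        · right; rw [h]; field_simp
      rcases max_choice |sc p 0| |sc p 1| with h | h
      · exact ⟨0, key 0 h.symm⟩
      · exact ⟨1, key 1 h.symm⟩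
    · exact ⟨2, Or.inr (zv_high h2)⟩

theorem gc_bdry_val (p : Fin 2 → I) (hp : p ∈ Cube.boundary (Fin 2)) : gc p = ![0, 0, -1] := by
  rw [boundary_iff] at hp
  unfold gc
  rw [hp, av_high (by norm_num), zv_high (by norm_num)]
  norm_num

theorem prof_inj {r r' : ℝ}
    (hm : r * av r = r' * av r') (hz : zv r = zv r') : r = r' := by
  rcases le_total r (1 / 2) with a | a
  · rw [av_low a, zv_low a] at *
    rcases le_total r' (1 / 2) with b | b
    · rw [av_low b] at hm; linarith
    · rcases le_total r' (3 / 4) with c | c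
      · rw [zv_mid b c] at hz
        rw [av_mid b c, mul_one_div_cancel (by linarith)] at hm
        linarith
      · rw [zv_high c] at hz; norm_num at hz
  · rcases le_total r (3 / 4) with d | d
    · rw [av_mid a d, zv_mid a d, mul_one_div_cancel (by linarith)] at *
      rcases le_total r' (1 / 2) with b | b
      · rw [av_low b] at hm
        rw [zv_low b] at hz
        linarith
      · rcases le_total r' (3 / 4) with c | c
        · rw [zv_mid b c] at hz; linarith
        · rw [zv_high c] at hz
          rw [av_high c, mul_div_cancel₀ _ (by linarith)] at hm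
          linarith
    · rw [av_high d, zv_high d, mul_div_cancel₀ _ (by linarith)] at *
      rcases le_total r' (1 / 2) with b | b
      · rw [zv_low b] at hz; norm_num at hz
      · rcases le_total r' (3 / 4) with c | c
        · rw [zv_mid b c] at hz
          rw [av_mid b c, mul_one_div_cancel (by linarith)] at hm
          linarith
        · rw [av_high c, mul_div_cancel₀ _ (by linarith)] at hm
          linarith

theorem max_gc (p : Fin 2 → I) : max |gc p 0| |gc p 1| = rr p * av (rr p) := by
  have h3 := av_nonneg (rr_le_one p)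
  change max |sc p 0 * av (rr p)| |sc p 1 * av (rr p)| = rr p * av (rr p)
  rw [abs_mul, abs_mul, abs_of_nonneg h3]
  unfold rr at *
  rw [max_mul_of_nonneg _ _ h3]

theorem gc_inj (p q : Fin 2 → I) (h : gc p = gc q) :
    p = q ∨ (p ∈ Cube.boundary (Fin 2) ∧ q ∈ Cube.boundary (Fin 2)) := by
  have hr : rr p = rr q := by
    refine prof_inj ?_ ?_
    · rw [← max_gc, ← max_gc, h]
    · exact congrFun h 2
  rcases (rr_le_one p).lt_or_eq with h1 | h1
  · left
    have hav : av (rr p) ≠ 0 := by
      unfold av
      have h2 : (0 : ℝ) < max (rr p) (1 / 2) := lt_of_lt_of_le (by norm_num) (le_max_right _ _)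
      have h3 : 0 < min 1 (4 * (1 - rr p)) := lt_min (by norm_num) (by linarith)
      positivity
    have e0 : sc p 0 * av (rr p) = sc q 0 * av (rr q) := congrFun h 0
    have e1 : sc p 1 * av (rr p) = sc q 1 * av (rr q) := congrFun h 1
    rw [← hr] at e0 e1
    have f0 := mul_right_cancel₀ hav e0
    have f1 := mul_right_cancel₀ hav e1
    funext i
    ext
    fin_cases i
    · simp only [sc] at f0
      simp only [Fin.zero_eta, Fin.isValue]
      linarith
    · simp only [sc] at f1
      simp only [Fin.mk_one, Fin.isValue]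
      linarith
  · right
    rw [boundary_iff, boundary_iff, ← hr]
    exact ⟨h1, h1⟩

/-- from centered coordinates in the square -/
noncomputable def mkp (s t : ℝ) (hs : |s| ≤ 1) (ht : |t| ≤ 1) : Fin 2 → I :=
  ![⟨(1 + s) / 2, by rw [abs_le] at hs; constructor <;> linarith⟩,
    ⟨(1 + t) / 2, by rw [abs_le] at ht; constructor <;> linarith⟩]

theorem mkp_sc0 (s t : ℝ) (hs : |s| ≤ 1) (ht : |t| ≤ 1) : sc (mkp s t hs ht) 0 = s := by
  simp only [sc, mkp, Matrix.cons_val_zero]
  ring

theorem mkp_sc1 (s t : ℝ) (hs : |s| ≤ 1) (ht : |t| ≤ 1) : sc (mkp s t hs ht) 1 = t := by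
  simp only [sc, mkp, Matrix.cons_val_one, Matrix.cons_val_zero]
  ring

theorem gc_surj_aux (x y z m r : ℝ) (hm : max |x| |y| = m) (hm0 : 0 < m)
    (hr0 : 0 ≤ r) (hr1 : r ≤ 1) (h1 : r * av r = m) (h2 : zv r = z) : ∃ p, gc p = ![x, y, z] := by
  have hx : |x * r / m| ≤ 1 := by
    rw [abs_div, abs_mul, abs_of_pos hm0, abs_of_nonneg hr0, div_le_one hm0]
    have : |x| ≤ m := by rw [← hm]; exact le_max_left _ _
    nlinarith [abs_nonneg x]
  have hy : |y * r / m| ≤ 1 := by
    rw [abs_div, abs_mul, abs_of_pos hm0, abs_of_nonneg hr0, div_le_one hm0]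
    have : |y| ≤ m := by rw [← hm]; exact le_max_right _ _
    nlinarith [abs_nonneg y]
  refine ⟨mkp (x * r / m) (y * r / m) hx hy, ?_⟩
  have hrr : rr (mkp (x * r / m) (y * r / m) hx hy) = r := by
    unfold rr
    rw [mkp_sc0, mkp_sc1, abs_div, abs_mul, abs_of_pos hm0, abs_of_nonneg hr0, abs_div, abs_mul,
      abs_of_pos hm0, abs_of_nonneg hr0, mul_div_assoc, mul_div_assoc,
      ← max_mul_of_nonneg _ _ (by positivity), hm]
    field_simp
  unfold gc
  rw [hrr, mkp_sc0, mkp_sc1, h2]
  have e1 : x * r / m * av r = x := by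
    rw [div_mul_eq_mul_div, mul_assoc, h1, mul_div_assoc, div_self hm0.ne', mul_one]
  have e2 : y * r / m * av r = y := by
    rw [div_mul_eq_mul_div, mul_assoc, h1, mul_div_assoc, div_self hm0.ne', mul_one]
  rw [e1, e2]

theorem gc_surj (w : Fin 3 → ℝ) (hw : ∀ i, |w i| ≤ 1) (hb : ∃ i, |w i| = 1) : ∃ p, gc p = w := by
  have hw3 : w = ![w 0, w 1, w 2] := by
    funext i; fin_cases i <;> rfl
  rw [hw3]
  have hm1 : max |w 0| |w 1| ≤ 1 := max_le (hw 0) (hw 1)
  have hm0 : 0 ≤ max |w 0| |w 1| := le_max_of_le_left (abs_nonneg _)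
  rcases hm0.lt_or_eq with hpos | hzero
  · -- positive radius
    rcases (hw 2).lt_or_eq with h2 | h2
    · -- side
      have hm : max |w 0| |w 1| = 1 := by
        obtain ⟨i, hi⟩ := hb
        apply le_antisymm hm1
        fin_cases i
        · rw [← hi]; exact le_max_left _ _
        · rw [← hi]; exact le_max_right _ _
        · exfalso
          simp only [Fin.reduceFinMk, Fin.isValue] at hi
          linarith
      rw [abs_lt] at h2
      refine gc_surj_aux (w 0) (w 1) (w 2) 1 ((5 - w 2) / 8) hm one_pos (by linarith)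
        (by linarith) ?_ ?_
      · rw [av_mid (by linarith) (by linarith), mul_one_div_cancel (by linarith)]
      · rw [zv_mid (by linarith) (by linarith)]; ring
    · rcases (abs_eq zero_le_one).1 h2 with h3 | h3
      · refine gc_surj_aux (w 0) (w 1) (w 2) _ (max |w 0| |w 1| / 2) rfl hpos (by linarith)
          (by linarith) ?_ ?_
        · rw [av_low (by linarith)]; ring
        · rw [zv_low (by linarith), h3]
      · refine gc_surj_aux (w 0) (w 1) (w 2) _ (1 - max |w 0| |w 1| / 4) rfl hpos (by linarith)
          (by linarith) ?_ ?_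
        · rw [av_high (by linarith), mul_div_cancel₀ _ (by linarith)]; ring
        · rw [zv_high (by linarith), h3]
  · have h0 : w 0 = 0 := by
      have : |w 0| ≤ 0 := by rw [hzero]; exact le_max_left _ _
      exact abs_nonpos_iff.1 this
    have h1 : w 1 = 0 := by
      have : |w 1| ≤ 0 := by rw [hzero]; exact le_max_right _ _
      exact abs_nonpos_iff.1 this
    have h2 : |w 2| = 1 := by
      obtain ⟨i, hi⟩ := hb
      fin_cases i
      · simp only [Fin.zero_eta, Fin.isValue] at hi
        rw [h0] at hi; norm_num at hi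
      · simp only [Fin.mk_one, Fin.isValue] at hi
        rw [h1] at hi; norm_num at hi
      · exact hi
    rw [h0, h1]
    rcases (abs_eq zero_le_one).1 h2 with h3 | h3
    · refine ⟨mkp 0 0 (by norm_num) (by norm_num), ?_⟩
      have hrr : rr (mkp 0 0 (by norm_num) (by norm_num)) = 0 := by
        unfold rr; rw [mkp_sc0, mkp_sc1]; norm_num
      unfold gc
      rw [hrr, mkp_sc0, mkp_sc1, zv_low (by norm_num), h3]
      norm_num
    · refine ⟨mkp 1 0 (by norm_num) (by norm_num), ?_⟩
      have hrr : rr (mkp 1 0 (by norm_num) (by norm_num)) = 1 := by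
        unfold rr; rw [mkp_sc0, mkp_sc1]; norm_num
      unfold gc
      rw [hrr, mkp_sc0, mkp_sc1, zv_high (by norm_num), av_high (by norm_num), h3]
      norm_num

end Pool.Agent.Helper44.Sinks
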