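import Pool.Agent.Helper44.Brouwer
import Pool.Agent.Helper44.Sinks.Sphere

/-!
The map `gc` from the square to the boundary of the cube is not null-homotopic, relative to the
boundary of the square, in the complement of the centre of the cube.
-/

open scoped unitInterval Topology

namespace Pool.Agent.Helper44.Sinks

/-- the solid cube -/
abbrev QQ := {x : Fin 3 → ℝ // ‖x‖ ≤ 1}

theorem norm_gc (p : Fin 2 → I) : ‖gc p‖ = 1 := by
  apply le_antisymm
  · rw [pi_norm_le_iff_of_nonneg zero_le_one]
    intro i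
    rw [Real.norm_eq_abs]
    exact gc_le p i
  · obtain ⟨i, hi⟩ := gc_boundary p
    have h1 : ‖gc p i‖ = 1 := by
      rcases hi with hi | hi <;> rw [hi] <;> norm_num
    rw [← h1]
    exact norm_le_pi_norm _ i

/-- polar coordinates on the cube -/
noncomputable def psi (x : I × (Fin 2 → I)) : QQ :=
  ⟨(1 - (x.1 : ℝ)) • gc x.2, by
    rw [norm_smul, norm_gc, mul_one, Real.norm_of_nonneg (by linarith [x.1.2.2])]
    linarith [x.1.2.1]⟩

theorem psi_cont : Continuous psi := by
  refine Continuous.subtype_mk ?_ _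
  exact (continuous_const.sub (continuous_subtype_val.comp continuous_fst)).smul
    (gc_cont.comp continuous_snd)

theorem psi_norm (x : I × (Fin 2 → I)) : ‖(psi x).1‖ = 1 - (x.1 : ℝ) := by
  simp only [psi]
  rw [norm_smul, norm_gc, mul_one, Real.norm_of_nonneg (by linarith [x.1.2.2])]

theorem psi_surj : Function.Surjective psi := by
  rintro ⟨x, hx⟩
  rcases eq_or_ne x 0 with h0 | h0
  · refine ⟨(1, fun _ => 0), ?_⟩
    ext1
    simp [psi, h0]
  · have hpos : 0 < ‖x‖ := norm_pos_iff.2 h0
    obtain ⟨p, hp⟩ := gc_surj ((‖x‖)⁻¹ • x) (fun i => by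
        rw [← Real.norm_eq_abs]
        have h1 : ‖(‖x‖⁻¹ • x) i‖ ≤ ‖‖x‖⁻¹ • x‖ := norm_le_pi_norm _ i
        have h2 : ‖‖x‖⁻¹ • x‖ = 1 := by
          rw [norm_smul, norm_inv, norm_norm, inv_mul_cancel₀ hpos.ne']
        linarith) (by
        obtain ⟨i, hi⟩ : ∃ i, ‖x i‖ = ‖x‖ := by
          have h3 := Finite.exists_max (fun i => ‖x i‖)
          obtain ⟨i, hi⟩ := h3
          refine ⟨i, le_antisymm (norm_le_pi_norm x i) ?_⟩
          rw [pi_norm_le_iff_of_nonneg (norm_nonneg _)]
          exact hi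
        refine ⟨i, ?_⟩
        rw [Pi.smul_apply, smul_eq_mul, abs_mul, abs_inv, abs_of_pos hpos, ← Real.norm_eq_abs, hi,
          inv_mul_cancel₀ hpos.ne'])
    refine ⟨(⟨1 - ‖x‖, by constructor <;> linarith⟩, p), ?_⟩
    ext1
    simp only [psi]
    rw [hp, sub_sub_cancel, smul_smul, mul_inv_cancel₀ hpos.ne', one_smul]

theorem no_filling (W : I × (Fin 2 → I) → (Fin 3 → ℝ)) (hW : Continuous W)
    (h0 : ∀ p, W (0, p) = gc p) (h1 : ∀ p, W (1, p) = ![0, 0, -1])
    (hb : ∀ t, ∀ p ∈ Cube.boundary (Fin 2), W (t, p) = ![0, 0, -1])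
    (hne : ∀ x, W x ≠ 0) : False := by
  let psiC : C(I × (Fin 2 → I), QQ) := ⟨psi, psi_cont⟩
  have hq : Topology.IsQuotientMap psiC := .of_surjective_continuous psi_surj psi_cont
  have hfib : ∀ x y, psi x = psi y → W x = W y := by
    rintro ⟨t, p⟩ ⟨t', p'⟩ h
    have hn : (t : ℝ) = t' := by
      have e1 := psi_norm (t, p)
      have e2 := psi_norm (t', p')
      rw [h] at e1
      rw [e1] at e2
      simp only at e2
      linarith
    have ht : t = t' := Subtype.ext hn
    subst ht
    rcases eq_or_ne (t : ℝ) 1 with ht1 | ht1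
    · have : t = 1 := Subtype.ext ht1
      rw [this, h1, h1]
    · have hg : gc p = gc p' := by
        have h2 := congrArg Subtype.val h
        simp only [psi] at h2
        exact smul_right_injective _ (sub_ne_zero.2 (Ne.symm ht1)) h2
      rcases gc_inj p p' hg with h3 | ⟨h3, h4⟩
      · rw [h3]
      · rw [hb t p h3, hb t p' h4]
  have hfib' : Function.FactorsThrough (⟨W, hW⟩ : C(I × (Fin 2 → I), Fin 3 → ℝ)) psiC :=
    fun x y h => hfib x y h
  let F : C(QQ, Fin 3 → ℝ) := hq.lift ⟨W, hW⟩ hfib'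
  have hF : ∀ x, F (psi x) = W x := by
    intro x
    exact congrFun (congrArg DFunLike.coe (hq.lift_comp ⟨W, hW⟩ hfib')) x
  have hFne : ∀ y, F y ≠ 0 := by
    intro y
    obtain ⟨x, rfl⟩ := psi_surj y
    rw [hF]
    exact hne x
  have hFid : ∀ y : QQ, ‖y.1‖ = 1 → F y = y.1 := by
    intro y hy
    obtain ⟨⟨t, p⟩, rfl⟩ := psi_surj y
    have ht : t = 0 := by
      rw [psi_norm] at hy
      ext
      simp only [Set.Icc.coe_zero]
      simp only at hy
      linarith
    subst ht
    rw [hF, h0]
    simp [psi]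
  let P : (Fin 3 → ℝ) → QQ := fun x => ⟨(1 / max 1 ‖x‖) • x, by
    have h0 : 0 < max 1 ‖x‖ := lt_of_lt_of_le one_pos (le_max_left _ _)
    rw [norm_smul, Real.norm_of_nonneg (by positivity), div_mul_eq_mul_div, one_mul,
      div_le_one h0]
    exact le_max_right _ _⟩
  have hPc : Continuous P := by
    refine Continuous.subtype_mk ?_ _
    refine Continuous.smul (continuous_const.div (continuous_const.max continuous_norm) ?_)
      continuous_id
    intro x
    exact (lt_of_lt_of_le one_pos (le_max_left _ _)).ne'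
  let H : (Fin 3 → ℝ) → (Fin 3 → ℝ) := fun x => if ‖x‖ ≤ 1 then F (P x) else x
  have hH : Continuous H := by
    refine Continuous.if_le (F.continuous.comp hPc) continuous_id continuous_norm
      continuous_const ?_
    intro x hx
    have hPx : (P x).1 = x := by
      simp only [P]
      rw [hx, max_self, div_one, one_smul]
    change F (P x) = x
    rw [hFid (P x) (by rw [hPx, hx]), hPx]
  have hHne : ∀ x, H x ≠ 0 := by
    intro x
    simp only [H]
    split_ifs with h
    · exact hFne _
    · intro h2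
      rw [h2, norm_zero] at h
      exact h zero_le_one
  obtain ⟨v, hv⟩ := Brouwer.exists_zero (E := EuclideanSpace ℝ (Fin 3))
    (fun v => WithLp.toLp 2 (H (WithLp.ofLp v)))
    ((PiLp.continuous_toLp 2 _).comp (hH.comp (PiLp.continuous_ofLp 2 _))) 2 (by
      intro v hv
      have h2 : ¬ ‖WithLp.ofLp v‖ ≤ 1 := by
        intro h3
        rw [pi_norm_le_iff_of_nonneg zero_le_one] at h3
        have h4 : ‖v‖ ^ 2 ≤ 3 := by
          rw [EuclideanSpace.norm_sq_eq]
          calc ∑ i, ‖v i‖ ^ 2 ≤ ∑ _i : Fin 3, (1 : ℝ) := by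
                refine Finset.sum_le_sum fun i _ => ?_
                have := h3 i
                exact pow_le_one₀ (norm_nonneg _) this
            _ = 3 := by simp
        nlinarith
      simp only [H]
      rw [if_neg h2])
  have hv' : H (WithLp.ofLp v) = 0 := by
    have := congrArg WithLp.ofLp hv
    simpa using this
  exact hHne _ hv'

end Pool.Agent.Helper44.Sinks
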