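import Pool.Agent.Helper44.Sinks.Defs
import Pool.Agent.Helper44.Sinks.Filling

/-!
Two unordered particles on a bouquet of three circles whose wedge point is a sink.
-/

open scoped unitInterval Topology

namespace Pool.Agent.Helper44.Sinks

/-- a point on an edge -/
def ept (e : Fin 3) (t : I) : bq.Space := Quot.mk _ (Sum.inr ⟨e, t⟩)

/-- the wedge point -/
def vx : bq.Space := bq.vertex ()

theorem ept_zero (e : Fin 3) : ept e 0 = vx := Quot.sound (MGraph.Glue.src (G := bq) e)

theorem ept_one (e : Fin 3) : ept e 1 = vx := Quot.sound (MGraph.Glue.tgt (G := bq) e)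

theorem ept_end {e : Fin 3} {t : I} (h : t = 0 ∨ t = 1) : ept e t = vx := by
  rcases h with h | h
  · rw [h, ept_zero]
  · rw [h, ept_one]

theorem ept_cont (e : Fin 3) : Continuous (ept e) :=
  continuous_quot_mk.comp (continuous_inr.comp continuous_sigmaMk)

theorem coe_zero_iff (t : I) : ((t : ℝ) : AddCircle (1 : ℝ)) = 0 ↔ t = 0 ∨ t = 1 := by
  rw [AddCircle.coe_eq_zero_iff]
  constructor
  · rintro ⟨n, hn⟩
    have hn' : (n : ℝ) = t := by simpa using hn
    have h0 : (0 : ℝ) ≤ n := by rw [hn']; exact t.2.1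
    have h1 : (n : ℝ) ≤ 1 := by rw [hn']; exact t.2.2
    have h0' : 0 ≤ n := by exact_mod_cast h0
    have h1' : n ≤ 1 := by exact_mod_cast h1
    have : n = 0 ∨ n = 1 := by omega
    rcases this with h | h
    · left; ext; rw [← hn', h]; simp
    · right; ext; rw [← hn', h]; simp
  · rintro (h | h)
    · exact ⟨0, by rw [h]; simp⟩
    · exact ⟨1, by rw [h]; simp⟩

/-- a point on the `e`-th axis of the 3-torus -/
noncomputable def upd (e : Fin 3) (t : I) : Fin 3 → AddCircle (1 : ℝ) :=
  Function.update 0 e ((t : ℝ) : AddCircle (1 : ℝ))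

theorem upd_self (e : Fin 3) (t : I) : upd e t e = ((t : ℝ) : AddCircle (1 : ℝ)) :=
  Function.update_self _ _ _

theorem upd_ne (e : Fin 3) (t : I) {j : Fin 3} (h : j ≠ e) : upd e t j = 0 :=
  Function.update_of_ne h _ _

theorem upd_end (e : Fin 3) {t : I} (h : t = 0 ∨ t = 1) : upd e t = 0 := by
  funext j
  by_cases hj : j = e
  · subst hj
    rw [upd_self, (coe_zero_iff t).2 h]
    rfl
  · rw [upd_ne e t hj]
    rfl

theorem upd_cont (e : Fin 3) : Continuous (upd e) := by
  refine continuous_const.update _ ?_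
  exact (AddCircle.continuous_mk' 1).comp continuous_subtype_val

/-- the map to the 3-torus before gluing -/
noncomputable def phi0 : (bq.V ⊕ (Σ _ : bq.E, I)) → (Fin 3 → AddCircle (1 : ℝ)) :=
  Sum.elim (fun _ => 0) (fun x => upd x.1 x.2)

/-- the map to the 3-torus -/
noncomputable def phi : bq.Space → (Fin 3 → AddCircle (1 : ℝ)) :=
  Quot.lift phi0 (by
    rintro _ _ (e | e)
    · exact upd_end e (Or.inl rfl)
    · exact upd_end e (Or.inr rfl))

theorem phi_cont : Continuous phi := by
  refine continuous_quot_lift _ ?_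
  refine Continuous.sumElim continuous_const ?_
  refine continuous_sigma ?_
  intro e
  exact upd_cont e

theorem phi_ept (e : Fin 3) (t : I) : phi (ept e t) = upd e t := rfl

theorem phi_supp (x : bq.Space) : ∃ e : Fin 3, ∀ j, j ≠ e → phi x j = 0 := by
  induction x using Quot.ind with
  | mk a =>
    rcases a with v | ⟨e, t⟩
    · exact ⟨0, fun j _ => rfl⟩
    · refine ⟨e, fun j hj => ?_⟩
      exact upd_ne e t hj

/-- a configuration of two points on different edges -/
def cf (j k : Fin 3) (hjk : j ≠ k) (s t : I) : OConf bq Set.univ 2 :=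
  ⟨![ept j s, ept k t], by
    have key : ept j s = ept k t → ept j s = vx := by
      intro h
      have h1 := congrFun (congrArg phi h) j
      rw [phi_ept, phi_ept, upd_self, upd_ne k t hjk] at h1
      exact ept_end ((coe_zero_iff s).1 h1)
    intro a b hab h
    refine ⟨(), Set.mem_univ _, ?_⟩
    change _ = vx
    fin_cases a <;> fin_cases b
    · exact absurd rfl hab
    · exact key h
    · have h' : ept k t = ept j s := h
      change ept k t = vx
      rw [h']
      exact key h'.symm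
    · exact absurd rfl hab⟩

/-- the unordered configuration -/
def uc (j k : Fin 3) (hjk : j ≠ k) (s t : I) : UConf bq Set.univ 2 :=
  Quotient.mk (permSetoid bq Set.univ 2) (cf j k hjk s t)

theorem uc_cont (j k : Fin 3) (hjk : j ≠ k) : Continuous fun x : I × I => uc j k hjk x.1 x.2 := by
  refine continuous_quot_mk.comp ?_
  refine Continuous.subtype_mk ?_ _
  refine continuous_pi ?_
  intro a
  fin_cases a
  · exact (ept_cont j).comp continuous_fst
  · exact (ept_cont k).comp continuous_snd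

theorem f3a : ∀ i : Fin 3, i + 1 ≠ i + 2 := by decide
theorem f3b : ∀ i : Fin 3, i + 1 + 1 = i + 2 := by decide
theorem f3c : ∀ i : Fin 3, i + 1 + 2 = i := by decide
theorem f3d : ∀ i : Fin 3, i ≠ i + 1 := by decide
theorem f3e : ∀ i : Fin 3, i ≠ i + 2 := by decide
theorem f3f : ∀ i l : Fin 3, l = i ∨ l = i + 1 ∨ l = i + 2 := by decide
theorem f3g : ∀ e e' : Fin 3, ∃ l : Fin 3, l ≠ e ∧ l ≠ e' := by decide

/-- the three charts -/
def uu (i : Fin 3) (q : Fin 3 → I) : UConf bq Set.univ 2 :=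
  uc (i + 1) (i + 2) (f3a i) (q (i + 1)) (q (i + 2))

theorem uu_cont (i : Fin 3) : Continuous (uu i) := by
  have h : Continuous fun q : Fin 3 → I => (q (i + 1), q (i + 2)) :=
    (continuous_apply (i + 1)).prodMk (continuous_apply (i + 2))
  exact (uc_cont (i + 1) (i + 2) (f3a i)).comp h

theorem uu_compat (i : Fin 3) (q : Fin 3 → I) (h : q i = 0 ∨ q i = 1)
    (h' : q (i + 1) = 0 ∨ q (i + 1) = 1) : uu i q = uu (i + 1) q := by
  refine Quotient.sound ⟨Equiv.swap 0 1, ?_⟩
  have e1 : i + 1 + 1 = i + 2 := f3b i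
  have e2 : i + 1 + 2 = i := f3c i
  have f1 : ept (i + 1) (q (i + 1)) = vx := ept_end h'
  have f2 : ept i (q i) = vx := ept_end h
  intro a
  fin_cases a
  · change ept (i + 1 + 1) (q (i + 1 + 1)) = ept (i + 2) (q (i + 2))
    rw [e1]
  · change ept (i + 1 + 2) (q (i + 1 + 2)) = ept (i + 1) (q (i + 1))
    rw [e2, f1, f2]

open Classical in
/-- the map from the boundary of the cube to the configuration space -/
noncomputable def sph (q : Fin 3 → I) : UConf bq Set.univ 2 :=
  if q 0 = 0 ∨ q 0 = 1 then uu 0 q else if q 1 = 0 ∨ q 1 = 1 then uu 1 q else uu 2 q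

theorem sph_eq0 (q : Fin 3 → I) (h : q 0 = 0 ∨ q 0 = 1) : sph q = uu 0 q := by
  unfold sph
  rw [if_pos h]

theorem sph_eq1 (q : Fin 3 → I) (h : q 1 = 0 ∨ q 1 = 1) : sph q = uu 1 q := by
  by_cases h0 : q 0 = 0 ∨ q 0 = 1
  · rw [sph_eq0 q h0]
    exact uu_compat 0 q h0 h
  · unfold sph
    rw [if_neg h0, if_pos h]

theorem sph_eq2 (q : Fin 3 → I) (h : q 2 = 0 ∨ q 2 = 1) : sph q = uu 2 q := by
  by_cases h0 : q 0 = 0 ∨ q 0 = 1
  · rw [sph_eq0 q h0]
    exact (uu_compat 2 q h h0).symm
  · by_cases h1 : q 1 = 0 ∨ q 1 = 1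
    · rw [sph_eq1 q h1]
      exact uu_compat 1 q h1 h
    · unfold sph
      rw [if_neg h0, if_neg h1]

theorem sph_eq (i : Fin 3) (q : Fin 3 → I) (h : q i = 0 ∨ q i = 1) : sph q = uu i q := by
  fin_cases i
  · exact sph_eq0 q h
  · exact sph_eq1 q h
  · exact sph_eq2 q h

/-- coordinates in `[0,1]` -/
noncomputable def gq (p : Fin 2 → I) (i : Fin 3) : I :=
  ⟨(1 + gc p i) / 2, by
    have := abs_le.1 (gc_le p i)
    constructor <;> linarith⟩

theorem gq_cont : Continuous gq := by
  refine continuous_pi fun i => Continuous.subtype_mk ?_ _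
  exact (continuous_const.add ((continuous_apply i).comp gc_cont)).div_const 2

theorem gq_end (p : Fin 2 → I) : ∃ i, gq p i = 0 ∨ gq p i = 1 := by
  obtain ⟨i, hi⟩ := gc_boundary p
  refine ⟨i, ?_⟩
  rcases hi with hi | hi
  · right; ext; simp only [gq, hi, Set.Icc.coe_one]; norm_num
  · left; ext; simp only [gq, hi, Set.Icc.coe_zero]; norm_num

theorem sph_gq_cont : Continuous fun p => sph (gq p) := by
  refine (locallyFinite_of_finite fun i : Fin 3 => {p | gq p i = 0 ∨ gq p i = 1}).continuous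
    ?_ ?_ ?_
  · ext p
    simp only [Set.mem_iUnion, Set.mem_univ, iff_true]
    exact gq_end p
  · intro i
    have hc : Continuous fun p => gq p i := (continuous_apply i).comp gq_cont
    exact (isClosed_eq hc continuous_const).union (isClosed_eq hc continuous_const)
  · intro i
    refine ((uu_cont i).comp gq_cont).continuousOn.congr ?_
    intro p hp
    exact sph_eq i (gq p) hp

/-- the map from the configuration space to the 3-torus -/
noncomputable def PhiO (x : OConf bq Set.univ 2) : Fin 3 → AddCircle (1 : ℝ) :=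
  ∑ i, phi (x.1 i)

theorem PhiO_rel (x y : OConf bq Set.univ 2) (h : (permSetoid bq Set.univ 2) x y) :
    PhiO x = PhiO y := by
  obtain ⟨g, hg⟩ := h
  have h1 : ∑ i, phi (y.1 i) = ∑ i, phi (x.1 (g i)) :=
    Finset.sum_congr rfl fun i _ => by rw [hg]
  have h2 := Equiv.sum_comp g (fun i => phi (x.1 i))
  unfold PhiO
  rw [h1, h2]

/-- the map from the unordered configuration space to the 3-torus -/
noncomputable def PhiU : UConf bq Set.univ 2 → (Fin 3 → AddCircle (1 : ℝ)) :=
  Quotient.lift PhiO PhiO_rel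

theorem PhiU_cont : Continuous PhiU := by
  refine Continuous.quotient_lift ?_ _
  refine continuous_finsetSum _ fun i _ => ?_
  exact phi_cont.comp ((continuous_apply i).comp continuous_subtype_val)

theorem PhiU_zero (x : UConf bq Set.univ 2) : ∃ l, PhiU x l = 0 := by
  induction x using Quotient.ind with
  | _ x =>
    obtain ⟨e, he⟩ := phi_supp (x.1 0)
    obtain ⟨e', he'⟩ := phi_supp (x.1 1)
    obtain ⟨l, h1, h2⟩ := f3g e e'
    refine ⟨l, ?_⟩
    change (∑ i, phi (x.1 i)) l = 0
    rw [Fin.sum_univ_two, Pi.add_apply, he l h1, he' l h2, add_zero]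

theorem PhiU_uu (i : Fin 3) (q : Fin 3 → I) (h : q i = 0 ∨ q i = 1) (l : Fin 3) :
    PhiU (uu i q) l = ((q l : ℝ) : AddCircle (1 : ℝ)) := by
  have h0 : PhiU (uu i q) = phi (ept (i + 1) (q (i + 1))) + phi (ept (i + 2) (q (i + 2))) := by
    change ∑ j, phi ((cf (i + 1) (i + 2) _ (q (i + 1)) (q (i + 2))).1 j) = _
    rw [Fin.sum_univ_two]
    rfl
  have hi := (coe_zero_iff (q i)).2 h
  have hne : i + 1 ≠ i + 2 := f3a i
  have hl : l = i ∨ l = i + 1 ∨ l = i + 2 := f3f i l
  have h1 : i ≠ i + 1 := f3d i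
  have h2 : i ≠ i + 2 := f3e i
  rw [h0, Pi.add_apply, phi_ept, phi_ept]
  rcases hl with hl | hl | hl
  · subst hl
    rw [upd_ne _ _ h1, upd_ne _ _ h2, hi, add_zero]
  · subst hl
    rw [upd_self, upd_ne _ _ hne, add_zero]
  · subst hl
    rw [upd_self, upd_ne _ _ hne.symm, zero_add]

theorem PhiU_sph (p : Fin 2 → I) (l : Fin 3) :
    PhiU (sph (gq p)) l = ((gq p l : ℝ) : AddCircle (1 : ℝ)) := by
  obtain ⟨i, hi⟩ := gq_end p
  rw [sph_eq i _ hi]
  exact PhiU_uu i _ hi l

/-- base point of the square -/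
def p₀ : Fin 2 → I := fun _ => 0

theorem p₀_mem : p₀ ∈ Cube.boundary (Fin 2) := ⟨0, Or.inl rfl⟩

theorem gq_bdry (p : Fin 2 → I) (hp : p ∈ Cube.boundary (Fin 2)) : gq p = gq p₀ := by
  funext i
  ext
  simp only [gq]
  rw [gc_bdry_val p hp, gc_bdry_val p₀ p₀_mem]

/-- base point of the configuration space -/
noncomputable def x₀ : UConf bq Set.univ 2 := sph (gq p₀)

/-- the generalized loop -/
noncomputable def loop : GenLoop (Fin 2) (UConf bq Set.univ 2) x₀ :=
  ⟨⟨fun p => sph (gq p), sph_gq_cont⟩, by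
    intro p hp
    change sph (gq p) = sph (gq p₀)
    rw [gq_bdry p hp]⟩

theorem not_homotopic : ¬ GenLoop.Homotopic loop GenLoop.const := by
  rintro ⟨F⟩
  have cov : IsCoveringMap ((↑) : ℝ → AddCircle (1 : ℝ)) := AddCircle.isCoveringMap_coe 1
  -- coordinate maps
  let co : ∀ l : Fin 3, C(UConf bq Set.univ 2, AddCircle (1 : ℝ)) := fun l =>
    ⟨fun x => PhiU x l, (continuous_apply l).comp PhiU_cont⟩
  let f₀ : ∀ _ : Fin 3, C(Fin 2 → I, ℝ) := fun l =>
    ⟨fun p => (gq p l : ℝ), continuous_subtype_val.comp ((continuous_apply l).comp gq_cont)⟩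
  let f₁ : ∀ _ : Fin 3, C(Fin 2 → I, ℝ) := fun l => ContinuousMap.const _ (gq p₀ l : ℝ)
  have he : ∀ l, ∃ a ∈ Cube.boundary (Fin 2), f₀ l a = f₁ l a := fun l => ⟨p₀, p₀_mem, rfl⟩
  have h₀ : ∀ l, ((↑) : ℝ → AddCircle (1 : ℝ)) ∘ f₀ l = (co l).comp loop.1 := by
    intro l
    funext p
    exact (PhiU_sph p l).symm
  have h₁ : ∀ l, ((↑) : ℝ → AddCircle (1 : ℝ)) ∘ f₁ l =
      (co l).comp (GenLoop.const (N := Fin 2) (x := x₀)).1 := by
    intro l
    funext p
    exact (PhiU_sph p₀ l).symm
  let K : ∀ l, ((co l).comp loop.1).HomotopyRel ((co l).comp GenLoop.const.1)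
      (Cube.boundary (Fin 2)) := fun l => F.compContinuousMap (co l)
  let L : ∀ l, (f₀ l).HomotopyRel (f₁ l) (Cube.boundary (Fin 2)) := fun l =>
    cov.liftHomotopyRel (K l) (he l) (h₀ l) (h₁ l)
  have hLK : ∀ l x, ((L l x : ℝ) : AddCircle (1 : ℝ)) = K l x := by
    intro l x
    exact congrFun (cov.liftHomotopy_lifts (K l).toContinuousMap (f₀ l)
      (fun a => ((K l).apply_zero a).trans (congrFun (h₀ l) a).symm)) x
  have hK : ∀ l x, K l x = PhiU (F x) l := fun l x => rfl
  let W : I × (Fin 2 → I) → (Fin 3 → ℝ) := fun x l => 2 * L l x - 1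
  refine no_filling W ?_ ?_ ?_ ?_ ?_
  · refine continuous_pi fun l => ?_
    exact ((L l).continuous.const_mul 2).sub continuous_const
  · intro p
    funext l
    simp only [W]
    have : L l (0, p) = gq p l := (L l).apply_zero p
    rw [this]
    simp only [gq]
    ring
  · intro p
    rw [← gc_bdry_val p₀ p₀_mem]
    funext l
    simp only [W]
    have : L l (1, p) = gq p₀ l := (L l).apply_one p
    rw [this]
    simp only [gq]
    ring
  · intro t p hp
    rw [← gc_bdry_val p hp]
    funext l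
    simp only [W]
    have : L l (t, p) = gq p l := (L l).eq_fst t hp
    rw [this]
    simp only [gq]
    ring
  · intro x hx
    obtain ⟨l, hl⟩ := PhiU_zero (F x)
    have h1 : L l x = 1 / 2 := by
      have := congrFun hx l
      simp only [W, Pi.zero_apply] at this
      linarith
    have h2 := hLK l x
    rw [hK, hl, h1] at h2
    rw [AddCircle.coe_eq_zero_iff] at h2
    obtain ⟨n, hn⟩ := h2
    have hn' : (n : ℝ) = 1 / 2 := by simpa using hn
    have hn2 : (2 * n : ℝ) = 1 := by linarith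
    have hn3 : 2 * n = 1 := by exact_mod_cast hn2
    omega

theorem nontrivial_pi2 : Nontrivial (HomotopyGroup.Pi 2 (UConf bq Set.univ 2) x₀) := by
  refine ⟨⟨Quotient.mk _ loop, Quotient.mk _ GenLoop.const, ?_⟩⟩
  intro h
  exact not_homotopic (Quotient.exact h)

end Pool.Agent.Helper44.Sinks
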